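import Pool.Agent.H88.MCR.Stmts

namespace Pool.MCR

theorem finite_sym_sym {V : Type} [Fintype V] (S : Set (Sym2 (Sym2 V))) : S.Finite := by
  classical
  exact Set.toFinite S

theorem maxCr_bdd (hU : UPB_S) {V : Type} [Fintype V] (G : SimpleGraph V) :
    BddAbove {k : ℕ | ∃ D : Drawing G, D.cr = k} := by
  refine ⟨indepPairs G, ?_⟩
  rintro k ⟨D, rfl⟩
  exact (hU V G D).2

theorem fin_first (hT : TOP_S) (hM : MPA_S) (hR : RST_S) (W V : Type) [Fintype W] [Fintype V]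
    (F : SimpleGraph W) (G : SimpleGraph V) (φ : W → V) (hF : F.IsAcyclic)
    (hφ : Function.Injective φ) :
    (∃ D : Drawing G, ∀ e ∈ F.edgeSet, ∀ f ∈ F.edgeSet, (∀ v, ¬ (v ∈ e ∧ v ∈ f)) →
      D.Crosses (e.map φ) (f.map φ)) := by
  obtain ⟨Dr, hDr⟩ := hT V (F.map (⟨φ, hφ⟩ : W ↪ V)) (hM W V F ⟨φ, hφ⟩ hF)
  obtain ⟨Dg, hDg⟩ := hR V G Dr
  refine ⟨Dg, fun e he f hf hi => hDg _ _ (hDr _ ?_ _ ?_ ?_)⟩
  · induction e using Sym2.ind with
    | _ a b =>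
      rw [Sym2.map_mk, SimpleGraph.mem_edgeSet]
      rw [SimpleGraph.mem_edgeSet] at he
      exact (SimpleGraph.map_adj ⟨φ, hφ⟩ F _ _).2 ⟨a, b, he, rfl, rfl⟩
  · induction f using Sym2.ind with
    | _ a b =>
      rw [Sym2.map_mk, SimpleGraph.mem_edgeSet]
      rw [SimpleGraph.mem_edgeSet] at hf
      exact (SimpleGraph.map_adj ⟨φ, hφ⟩ F _ _).2 ⟨a, b, hf, rfl, rfl⟩
  · rintro v ⟨h1, h2⟩
    rw [Sym2.mem_map] at h1 h2
    obtain ⟨a, ha, rfl⟩ := h1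
    obtain ⟨b, hb, hab⟩ := h2
    have := hφ hab
    subst this
    exact hi b ⟨ha, hb⟩

theorem indep_le_cr {W V : Type} [Fintype W] [Fintype V]
    (F : SimpleGraph W) (G : SimpleGraph V) (φ : W → V) (hφ : Function.Injective φ)
    (hG : ∀ a b, F.Adj a b → G.Adj (φ a) (φ b)) (D : Drawing G)
    (hD : ∀ e ∈ F.edgeSet, ∀ f ∈ F.edgeSet, (∀ v, ¬ (v ∈ e ∧ v ∈ f)) →
      D.Crosses (e.map φ) (f.map φ)) : indepPairs F ≤ D.cr := by
  have key : ∀ e ∈ F.edgeSet, e.map φ ∈ G.edgeSet := by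
    intro e he
    induction e using Sym2.ind with
    | _ a b =>
      rw [Sym2.map_mk, SimpleGraph.mem_edgeSet]
      exact hG a b ((SimpleGraph.mem_edgeSet F).1 he)
  have hinj : Function.Injective (Sym2.map φ) := Sym2.map.injective hφ
  have hinj2 : Function.Injective (Sym2.map (Sym2.map φ)) := Sym2.map.injective hinj
  unfold indepPairs Drawing.cr
  refine Set.ncard_le_ncard_of_injOn (Sym2.map (Sym2.map φ)) ?_ (hinj2.injOn)
    (finite_sym_sym _)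
  rintro q ⟨e, he, f, hf, rfl, hi⟩
  refine ⟨e.map φ, key e he, f.map φ, key f hf, ?_, rfl, hD e he f hf hi⟩
  intro h
  have h2 := hinj h
  subst h2
  induction e using Sym2.ind with
  | _ a b => exact hi a ⟨Sym2.mem_mk_left a b, Sym2.mem_mk_left a b⟩

theorem fin_thm (hT : TOP_S) (hM : MPA_S) (hR : RST_S) (hU : UPB_S) : FIN_S := by
  intro W V _ _ F G φ hF hφ hG
  obtain ⟨D, hD⟩ := fin_first hT hM hR W V F G φ hF hφ
  obtain ⟨D0, hD0⟩ := fin_first hT hM hR W W F F id hF Function.injective_id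
  have h1 : indepPairs F ≤ D.cr := indep_le_cr F G φ hφ hG D hD
  have h0 : indepPairs F ≤ D0.cr := indep_le_cr F F id Function.injective_id (fun a b h => h) D0 hD0
  have e1 : maxCr F = indepPairs F := by
    apply le_antisymm
    · unfold maxCr
      refine csSup_le ⟨D0.cr, D0, rfl⟩ ?_
      rintro k ⟨D', rfl⟩
      exact (hU W F D').2
    · exact h0.trans (le_csSup (maxCr_bdd hU F) ⟨D0, rfl⟩)
  refine ⟨⟨D, hD⟩, e1, ?_⟩
  rw [e1]
  exact h1.trans (le_csSup (maxCr_bdd hU G) ⟨D, rfl⟩)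

end Pool.MCR
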