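import Mathlib

/-!
# Topological drawings and crossings (problem MP_ffb5eb_co)
-/

namespace Pool.MCR

/-- `X` is a simple curve from `p` to `q`. -/
def SimpleCurve (X : Set (ℝ × ℝ)) (p q : ℝ × ℝ) : Prop :=
  ∃ γ : Path p q, Function.Injective γ ∧ Set.range γ = X

/-- The sets `X` and `Y` cross properly at `p`: for a homeomorphism `Φ` of the plane with
`Φ p = 0` and an open neighbourhood `U` of `p`, inside `U` the set `X` is the preimage of the
first and `Y` the preimage of the second coordinate axis. -/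
def ProperCrossing (X Y : Set (ℝ × ℝ)) (p : ℝ × ℝ) : Prop :=
  ∃ (Φ : (ℝ × ℝ) ≃ₜ (ℝ × ℝ)) (U : Set (ℝ × ℝ)), IsOpen U ∧ p ∈ U ∧ Φ p = (0, 0) ∧
    ∀ q ∈ U, (q ∈ X ↔ (Φ q).2 = 0) ∧ (q ∈ Y ↔ (Φ q).1 = 0)

/-- A topological drawing of the graph `G` in the plane: distinct points `pos v` for the
vertices, a simple curve `arc e` for every edge `e`, joining its end vertices and passing
through no other vertex; any two edges have at most one common point; a point that is not a
vertex lies on at most two edges, and they cross properly there. -/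
structure Drawing {V : Type} (G : SimpleGraph V) where
  pos : V → ℝ × ℝ
  arc : Sym2 V → Set (ℝ × ℝ)
  pos_inj : Function.Injective pos
  arc_curve : ∀ u v, G.Adj u v → SimpleCurve (arc s(u, v)) (pos u) (pos v)
  arc_vertex : ∀ u v w, G.Adj u v → pos w ∈ arc s(u, v) → w = u ∨ w = v
  arc_inter : ∀ e ∈ G.edgeSet, ∀ f ∈ G.edgeSet, e ≠ f → (arc e ∩ arc f).Subsingleton
  arc_triple : ∀ e ∈ G.edgeSet, ∀ f ∈ G.edgeSet, ∀ g ∈ G.edgeSet, e ≠ f → e ≠ g → f ≠ g →
    ∀ p, p ∈ arc e → p ∈ arc f → p ∈ arc g → p ∈ Set.range pos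
  arc_proper : ∀ e ∈ G.edgeSet, ∀ f ∈ G.edgeSet, e ≠ f → ∀ p, p ∈ arc e → p ∈ arc f →
    p ∉ Set.range pos → ProperCrossing (arc e) (arc f) p

/-- The edges `e` and `f` cross: they have a common point that is not a vertex. -/
def Drawing.Crosses {V : Type} {G : SimpleGraph V} (D : Drawing G) (e f : Sym2 V) : Prop :=
  ∃ p, p ∈ D.arc e ∧ p ∈ D.arc f ∧ p ∉ Set.range D.pos

/-- The number of crossings, counted as the number of unordered pairs of different edges that
cross (two edges cross at most once, and no three edges cross at the same point). -/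
noncomputable def Drawing.cr {V : Type} {G : SimpleGraph V} (D : Drawing G) : ℕ :=
  {q : Sym2 (Sym2 V) | ∃ e ∈ G.edgeSet, ∃ f ∈ G.edgeSet, e ≠ f ∧ q = s(e, f) ∧
    D.Crosses e f}.ncard

end Pool.MCR
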