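import Pool.Agent.H88.MCR.Stmts

namespace Pool.MCR

theorem pos_mem_arc {V : Type} {G : SimpleGraph V} (D : Drawing G) (e : Sym2 V)
    (he : e ∈ G.edgeSet) (v : V) (hv : v ∈ e) : D.pos v ∈ D.arc e := by
  induction e using Sym2.ind with
  | _ a b =>
    rw [SimpleGraph.mem_edgeSet] at he
    obtain ⟨γ, -, hr⟩ := D.arc_curve a b he
    rw [← hr]
    rcases Sym2.mem_iff.1 hv with rfl | rfl
    · exact ⟨0, γ.source⟩
    · exact ⟨1, γ.target⟩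

theorem upb_thm : UPB_S := by
  intro V _ G D
  have h1 : ∀ e ∈ G.edgeSet, ∀ f ∈ G.edgeSet, e ≠ f → D.Crosses e f →
      ∀ v, ¬ (v ∈ e ∧ v ∈ f) := by
    rintro e he f hf hne ⟨p, hpe, hpf, hp⟩ v ⟨hve, hvf⟩
    apply hp
    have := D.arc_inter e he f hf hne ⟨hpe, hpf⟩
      ⟨pos_mem_arc D e he v hve, pos_mem_arc D f hf v hvf⟩
    exact ⟨v, this.symm⟩
  refine ⟨h1, ?_⟩
  unfold Drawing.cr indepPairs
  refine Set.ncard_le_ncard ?_ (Set.toFinite _)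
  rintro q ⟨e, he, f, hf, hne, rfl, hc⟩
  exact ⟨e, he, f, hf, rfl, h1 e he f hf hne hc⟩

end Pool.MCR
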