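import Pool.Agent.H88.MCR.Stmts
import Pool.Agent.H97.MCR.AHD
import Pool.Agent.H31.MCR.ARM
import Pool.Agent.H34.MCR.ARN
import Pool.Agent.H46.MCR.ARR
import Pool.Agent.H12.MCR.ARV
import Pool.Agent.H70.MCR.CAT
import Pool.Agent.H78.MCR.CGD
import Pool.Agent.H48.MCR.CGJ
import Pool.Agent.H80.MCR.CGP
import Pool.Agent.H26.MCR.CLA
import Pool.Agent.H82.MCR.CLB
import Pool.Agent.H25.MCR.CN2
import Pool.Agent.H40.MCR.CNN
import Pool.Agent.H23.MCR.CNO
import Pool.Agent.H82.MCR.CNS
import Pool.Agent.H54.MCR.CNX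
import Pool.Agent.H89.MCR.CPP
import Pool.Agent.H66.MCR.CPT
import Pool.Agent.H72.MCR.CPV
import Pool.Agent.H86.MCR.CTH
import Pool.Agent.H45.MCR.CUR
import Pool.Agent.H31.MCR.CVX
import Pool.Agent.H51.MCR.DRW
import Pool.Agent.H47.MCR.EPT
import Pool.Agent.H88.MCR.FIN
import Pool.Agent.H93.MCR.FLP
import Pool.Agent.H22.MCR.GEN
import Pool.Agent.H58.MCR.IN0
import Pool.Agent.H56.MCR.IN1
import Pool.Agent.H86.MCR.INB
import Pool.Agent.H1.MCR.KIT
import Pool.Agent.H76.MCR.KLT
import Pool.Agent.H34.MCR.LOC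
import Pool.Agent.H25.MCR.MAI
import Pool.Agent.H33.MCR.MPA
import Pool.Agent.H86.MCR.OLD
import Pool.Agent.H64.MCR.ORD
import Pool.Agent.H49.MCR.PAR
import Pool.Agent.H93.MCR.PRJ
import Pool.Agent.H14.MCR.PRO
import Pool.Agent.H31.MCR.RNK
import Pool.Agent.H54.MCR.RST
import Pool.Agent.H1.MCR.TGD
import Pool.Agent.H55.MCR.TOP
import Pool.Agent.H44.MCR.TRF
import Pool.Agent.H31.MCR.TTH
import Pool.Agent.H50.MCR.TWA
import Pool.Agent.H36.MCR.TWC
import Pool.Agent.H88.MCR.UPB

namespace Pool.MCR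

theorem kit_done : KIT_S := kit_thm arn_thm ahd_thm
theorem twa_done : TWA_S := twa_thm arv_thm
theorem twc_done : TWC_S := twc_thm inb_thm prj_thm loc_thm kit_done twa_done
theorem tgd_done : TGD_S := tgd_thm old_thm twa_done twc_done
theorem tth_done : TTH_S := tth_thm old_thm twa_done twc_done
theorem clb_done : CLB_S := clb_thm arv_thm
theorem cno_done : CNO_S := cno_thm inb_thm prj_thm loc_thm kit_done cla_thm clb_done
theorem cn2_done : CN2_S := cn2_thm prj_thm loc_thm kit_done cla_thm clb_done old_thm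
theorem cnn_done : CNN_S := cnn_thm inb_thm prj_thm loc_thm klt_thm kit_done cla_thm clb_done
theorem cns_done : CNS_S := cns_thm inb_thm prj_thm loc_thm kit_done cla_thm clb_done
theorem cnx_done : CNX_S := cnx_thm inb_thm prj_thm loc_thm kit_done cla_thm clb_done
theorem cgj_done : CGJ_S := cgj_thm kit_done klt_thm
theorem cgd_done : CGD_S :=
  cgd_thm old_thm clb_done cnn_done cns_done cno_done cn2_done cgp_thm cgj_done
theorem cth_done : CTH_S := cth_thm clb_done cnx_done
theorem rnk_done : RNK_S := rnk_thm klt_thm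
theorem flp_done : FLP_S := flp_thm arm_thm
theorem arr_done : ARR_S := arr_thm kit_done klt_thm tgd_done tth_done flp_done
theorem mai_done : MAI_S := mai_thm arr_done rnk_done cgd_done cth_done cvx_thm
theorem trf_done : TRF_S := trf_thm gen_thm arm_thm
theorem cur_done : CUR_S := cur_thm par_thm cat_thm in0_thm ept_thm arn_thm
theorem cpp_done : CPP_S := cpp_thm kit_done in0_thm in1_thm pro_thm inb_thm
theorem cpt_done : CPT_S := cpt_thm cpp_done kit_done ept_thm inb_thm in0_thm
theorem cpv_done : CPV_S := cpv_thm ept_thm kit_done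
theorem drw_done : DRW_S := drw_thm kit_done cur_done cpp_done cpt_done cpv_done in1_thm
theorem top_done : TOP_S := top_thm ord_thm mai_done trf_done drw_done
theorem fin_done : FIN_S := fin_thm top_done mpa_thm rst_thm upb_thm

end Pool.MCR
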