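import Pool.Agent.H88.MCR.Asm
import Pool.Agent.H81.MCR.STC
import Pool.Agent.H62.MCR.AR2
import Pool.Agent.H70.MCR.ORB
import Pool.Agent.H21.MCR.ORA
import Pool.Agent.H71.MCR.OR2
import Pool.Agent.H66.MCR.CLU
import Pool.Agent.H54.MCR.TWU
import Pool.Agent.H48.MCR.CNG
import Pool.Agent.H67.MCR.NXK
import Pool.Agent.H14.MCR.B6G
import Pool.Agent.H45.MCR.CYC
import Pool.Agent.H44.MCR.MAU
import Pool.Agent.H34.MCR.MP2
import Pool.Agent.H26.MCR.TO2
import Pool.Agent.H22.MCR.FI2

namespace Pool.MCR

theorem cng_done : CNG_S := cng_thm inb_thm prj_thm loc_thm kit_done cla_thm clb_done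
theorem twu_done : TWU_S := twu_thm kit_done
theorem clu_done : CLU_S := clu_thm kit_done
theorem ar2_done : AR2_S :=
  ar2_thm kit_done klt_thm tgd_done tth_done flp_done arr_done nxk_thm twu_done
theorem stc_done : STC_S :=
  stc_thm ar2_done rnk_done cgd_done flp_done clu_done cng_done old_thm clb_done klt_thm kit_done
theorem cyc_done : CYC_S := cyc_thm cvx_thm b6g_thm stc_done
theorem mau_done : MAU_S := mau_thm cyc_done arr_done rnk_done cgd_done cth_done
theorem or2_done : OR2_S := or2_thm ora_thm orb_thm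
theorem to2_done : TO2_S := to2_thm ord_thm mai_done or2_done mau_done trf_done drw_done
theorem mp2_done : MP2_S := mp2_thm mpa_thm
theorem fi2_done : FI2_S := fi2_thm to2_done mp2_done rst_thm upb_thm

end Pool.MCR
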