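import Pool.Agent.H88.MCR.Drawing

/-!
Arc diagrams for MP_ffb5eb_co.  Vertices and auxiliary crossing points lie on a horizontal
line (the spine, a linear order `L`); an edge is a chain of arcs, alternately above and below
the spine.  `true` is above.
-/

namespace Pool.MCR

section order
variable {L : Type} [LinearOrder L]

/-- `c` lies strictly between `a` and `b`. -/
def Btw (a b c : L) : Prop := (a < c ∧ c < b) ∨ (b < c ∧ c < a)

/-- `d` lies strictly outside the interval with end points `a`, `b`. -/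
def Out (a b d : L) : Prop := (d < a ∧ d < b) ∨ (a < d ∧ b < d)

/-- `{a,b}` and `{c,d}` interleave. -/
def Inter (a b c d : L) : Prop := (Btw a b c ∧ Out a b d) ∨ (Btw a b d ∧ Out a b c)

/-- An arc: side and the two end points. -/
abbrev Arc (L : Type) := Bool × L × L

/-- Two arcs cross iff they are on the same side and interleave. -/
def Cross (A B : Arc L) : Prop := A.1 = B.1 ∧ Inter A.2.1 A.2.2 B.2.1 B.2.2

def NC (α β : List (Arc L)) : Prop := ∀ A ∈ α, ∀ B ∈ β, ¬ Cross A B

def AM (α β : List (Arc L)) : Prop :=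
  ∀ A ∈ α, ∀ B ∈ β, ∀ A' ∈ α, ∀ B' ∈ β, Cross A B → Cross A' B' → A = A' ∧ B = B'

def EX (α β : List (Arc L)) : Prop := ∃ A ∈ α, ∃ B ∈ β, Cross A B

/-- Rotation order at `w` of two upper arcs `w c`, `w d` (counterclockwise, starting from the
east): first the arcs going east, the shorter first, then the arcs going west, the longer
first. -/
def KL (w c d : L) : Prop :=
  (w < c ∧ d < w) ∨ (w < c ∧ w < d ∧ c < d) ∨ (c < w ∧ d < w ∧ c < d)

end order

/-- The arcs of a chain of spine points, sides alternating, the first on side `s`. -/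
def arcs {L : Type} : Bool → List L → List (Arc L)
  | s, a :: b :: t => (s, a, b) :: arcs (!s) (b :: t)
  | _, [] => []
  | _, [_] => []

/-- A diagram: the places of the vertices `0, 1, 2, …`, for every ordered pair of vertices the
interior spine points of the edge, and the side of its first arc. -/
structure Diag (L : Type) where
  pos : ℕ → L
  E : ℕ → ℕ → List L
  S : ℕ → ℕ → Bool

/-- All spine points of the edge from `x` to `y`. -/
def Diag.P {L : Type} (D : Diag L) (x y : ℕ) : List L := D.pos x :: (D.E x y ++ [D.pos y])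

/-- The arcs of the edge from `x` to `y`. -/
def Diag.A {L : Type} (D : Diag L) (x y : ℕ) : List (Arc L) := arcs (D.S x y) (D.P x y)

/-- The first spine point after `x` on the edge from `x` to `y`. -/
def Diag.nx {L : Type} (D : Diag L) (x y : ℕ) : L := (D.E x y).headD (D.pos y)

/-- The diagram restricted to the vertices `< n` is a simple drawing of the complete graph. -/
structure Good {L : Type} [LinearOrder L] (n : ℕ) (D : Diag L) : Prop where
  pos_inj : ∀ x < n, ∀ y < n, D.pos x = D.pos y → x = y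
  notin : ∀ x < n, ∀ y < n, ∀ z < n, x ≠ y → D.pos z ∉ D.E x y
  nodup : ∀ x < n, ∀ y < n, x ≠ y → (D.E x y).Nodup
  disj : ∀ x < n, ∀ y < n, ∀ z < n, ∀ t < n, x ≠ y → z ≠ t → ∀ c, c ∈ D.E x y → c ∈ D.E z t →
    (x = z ∧ y = t) ∨ (x = t ∧ y = z)
  symE : ∀ x < n, ∀ y < n, x ≠ y → ∀ c, c ∈ D.E x y → c ∈ D.E y x
  symA : ∀ x < n, ∀ y < n, x ≠ y → ∀ s a b, (s, a, b) ∈ D.A x y → (s, b, a) ∈ D.A y x
  adj : ∀ x < n, ∀ y < n, ∀ z < n, x ≠ y → x ≠ z → y ≠ z → NC (D.A x y) (D.A x z)
  self : ∀ x < n, ∀ y < n, x ≠ y → NC (D.A x y) (D.A x y)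
  two : ∀ x < n, ∀ y < n, ∀ z < n, ∀ t < n, x ≠ y → z ≠ t → x ≠ z → x ≠ t → y ≠ z → y ≠ t →
    AM (D.A x y) (D.A z t)

/-- Every two independent edges of `T` (among vertices `< n`) cross. -/
def Thr {L : Type} [LinearOrder L] (T : ℕ → ℕ → Prop) (n : ℕ) (D : Diag L) : Prop :=
  ∀ x < n, ∀ y < n, ∀ z < n, ∀ t < n, x ≠ y → z ≠ t → x ≠ z → x ≠ t → y ≠ z → y ≠ t →
    (T x y ∨ T y x) → (T z t ∨ T t z) → EX (D.A x y) (D.A z t)

/-- `w u` is an upper edge at `w`, and the first one in the rotation order from the east. -/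
def FirstUp {L : Type} [LinearOrder L] (D : Diag L) (n w u : ℕ) : Prop :=
  D.S w u = true ∧ ∀ y < n, y ≠ w → y ≠ u → D.S w y = true → KL (D.pos w) (D.nx w u) (D.nx w y)

/-- A point infinitely close to `a`. -/
def lp {L : Type} (a : L) (k : ℤ) : L ×ₗ ℤ := toLex (a, k)

/-- The parallel copy of the interior points of a chain whose first arc has side `s`, on the
left hand side of the curve. -/
def shift {L : Type} : Bool → List L → List (L ×ₗ ℤ)
  | _, [] => []
  | s, c :: t => lp c (if s then 1 else -1) :: shift (!s) t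

/-- Interior points of the edge from the clone of `w` to `x`. -/
def newE {L : Type} (D : Diag L) (w : ℕ) (r : ℕ → ℤ) (x : ℕ) : List (L ×ₗ ℤ) :=
  if x = w then [] else
    (if D.S w x = true then [lp (D.pos w) (- r x)] else []) ++ shift (D.S w x) (D.E w x)

/-- The diagram with a clone `n` of the vertex `w`, placed immediately to the east of `w`. -/
def clone {L : Type} (D : Diag L) (n w : ℕ) (r : ℕ → ℤ) : Diag (L ×ₗ ℤ) where
  pos z := if z = n then lp (D.pos w) 1 else lp (D.pos z) 0
  E x y := if x = n then newE D w r y else if y = n then (newE D w r x).reverse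
    else (D.E x y).map (fun c => lp c 0)
  S x y := if x = n then (if y = w then true else false)
    else if y = n then xor (if x = w then true else false) (Nat.bodd (newE D w r x).length)
    else D.S x y

/-- Twisting the (first) upper edge `w x` at `w`: it leaves `w` below the spine, and crosses it
immediately to the east of `w`. -/
def twist {L : Type} (D : Diag L) (w x : ℕ) : Diag (L ×ₗ ℤ) where
  pos z := lp (D.pos z) 0
  E a b := if a = w ∧ b = x then lp (D.pos w) 1 :: (D.E w x).map (fun c => lp c 0)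
    else if a = x ∧ b = w then (lp (D.pos w) 1 :: (D.E w x).map (fun c => lp c 0)).reverse
    else (D.E a b).map (fun c => lp c 0)
  S a b := if a = w ∧ b = x then false
    else if a = x ∧ b = w then Nat.bodd ((D.E w x).length + 1)
    else D.S a b

/-- The mirror image in the spine. -/
def flip {L : Type} (D : Diag L) : Diag L where
  pos := D.pos
  E := D.E
  S a b := !(D.S a b)

/-- Image under a map of the spine. -/
def Diag.map {L M : Type} (D : Diag L) (h : L → M) : Diag M where
  pos z := h (D.pos z)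
  E x y := (D.E x y).map h
  S := D.S

/-- Hypotheses of the cloning step: `r` is a rank function for the upper edges at `w`. -/
def Ranked {L : Type} [LinearOrder L] (n : ℕ) (D : Diag L) (w : ℕ) (r : ℕ → ℤ) : Prop :=
  (∀ x, 1 ≤ r x) ∧ ∀ x < n, ∀ y < n, x ≠ w → y ≠ w → x ≠ y → D.S w x = true → D.S w y = true →
    KL (D.pos w) (D.nx w x) (D.nx w y) → r x < r y

/-- `T` with the additional edge `n u`. -/
def addE (T : ℕ → ℕ → Prop) (n u : ℕ) : ℕ → ℕ → Prop := fun x y => T x y ∨ (x = n ∧ y = u)

/-- The image of an arc of the edge `w x` in the edge from the clone of `w` to `x`. -/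
def la {L : Type} [LinearOrder L] (D : Diag L) (w : ℕ) (r : ℕ → ℤ) (x : ℕ) (A : Arc L) :
    Arc (L ×ₗ ℤ) :=
  (A.1, lp A.2.1 (if A.2.1 = D.pos w then (if A.1 = true then - r x else 1)
      else (if A.1 = true then -1 else 1)),
    lp A.2.2 (if A.2.2 = D.pos x then 0 else (if A.1 = true then 1 else -1)))

/-- The image of an arc of the twisted edge. -/
def ta {L : Type} [LinearOrder L] (D : Diag L) (w : ℕ) (A : Arc L) : Arc (L ×ₗ ℤ) :=
  (A.1, lp A.2.1 (if A.2.1 = D.pos w then 1 else 0), lp A.2.2 0)

/-- The image of an old arc. -/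
def l0 {L : Type} (A : Arc L) : Arc (L ×ₗ ℤ) := (A.1, lp A.2.1 0, lp A.2.2 0)

/-! ### Geometry -/

/-- The parabolic arc over or under the segment from `a` to `b` of the `x`-axis. -/
def arcSet (s : Bool) (a b : ℝ) : Set (ℝ × ℝ) :=
  {p | 0 ≤ (p.1 - a) * (b - p.1) ∧ p.2 = (if s = true then 1 else -1) * ((p.1 - a) * (b - p.1))}

/-- The union of the arcs of a list. -/
def curve (α : List (Arc ℝ)) : Set (ℝ × ℝ) := {p | ∃ A ∈ α, p ∈ arcSet A.1 A.2.1 A.2.2}

/-- The maximum crossing number. -/
noncomputable def maxCr {V : Type} (G : SimpleGraph V) : ℕ :=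
  sSup {k : ℕ | ∃ D : Drawing G, D.cr = k}

/-- The number of unordered pairs of edges with no common end point. -/
noncomputable def indepPairs {V : Type} (G : SimpleGraph V) : ℕ :=
  {q : Sym2 (Sym2 V) | ∃ e ∈ G.edgeSet, ∃ f ∈ G.edgeSet, q = s(e, f) ∧
    ∀ v, ¬ (v ∈ e ∧ v ∈ f)}.ncard

/-- The points used by a diagram. -/
def Pt {L : Type} (n : ℕ) (D : Diag L) (c : L) : Prop :=
  (∃ x < n, c = D.pos x) ∨ ∃ x < n, ∃ y < n, x ≠ y ∧ c ∈ D.E x y

/-- The condition for three parabolas to be concurrent. -/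
def det6 (a b c d e f : ℝ) : ℝ :=
  (a + b) * (c * d - e * f) + (c + d) * (e * f - a * b) + (e + f) * (a * b - c * d)

/-- No three arcs with six distinct end points among the points with property `Q` are
concurrent. -/
def Generic (Q : ℝ → Prop) : Prop :=
  ∀ a b c d e f : ℝ, Q a → Q b → Q c → Q d → Q e → Q f → [a, b, c, d, e, f].Nodup →
    det6 a b c d e f ≠ 0

/-- The tree on `0, 1, 2, …` with the edges `x, p x`, `x ≥ 1`. -/
def parT (p : ℕ → ℕ) : ℕ → ℕ → Prop := fun x y => 1 ≤ x ∧ y = p x

end Pool.MCR
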