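import Pool.Agent.H88.MCR.Defs

/-!
Statements of the rows.  A row `XXX` is `theorem xxx_thm (h1 : DEP1_S) ... : XXX_S`.
Picture for the cloning step: see the docstring of `CLA_S`.
-/

namespace Pool.MCR

/-! ### Order -/

/-- INB. Symmetries of `Inter`.  Unfold and split; `lt_trichotomy`, `order`/`tauto`. -/
def INB_S : Prop := ∀ (L : Type) [LinearOrder L] (a b c d : L),
  (Inter a b c d ↔ Inter b a c d) ∧ (Inter a b c d ↔ Inter a b d c) ∧
  (Inter a b c d ↔ Inter c d a b) ∧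
  (Inter a b c d → a ≠ b ∧ a ≠ c ∧ a ≠ d ∧ b ≠ c ∧ b ≠ d ∧ c ≠ d)

/-- PRJ. If the first coordinates of `{a,b}` and `{c,d}` are disjoint, the comparisons in the
lexicographic product are decided by the first coordinate (`Prod.Lex.toLex_lt_toLex`). -/
def PRJ_S : Prop := ∀ (L : Type) [LinearOrder L] (a b c d : L) (α β γ δ : ℤ),
  a ≠ c → a ≠ d → b ≠ c → b ≠ d →
  (Inter (lp a α) (lp b β) (lp c γ) (lp d δ) ↔ Inter a b c d)

/-- LOC. Local facts at `w` and for parallel copies.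
(1) parallel copies do not cross: the shifts at the two ends have opposite signs (or one is 0,
then the end is shared).  (2) two copies of upper edges starting at `w-ρ`, `w-σ`.
(3) the small lower arc from `w+1` to `w-ρ` crosses every lower arc at `w`.
(4) the copy of the first upper edge crosses the later upper edges at `w`.
(5) the small upper arc `w w+1`.  (6),(7) the twisted arc, which starts at `w+1`. -/
def LOC_S : Prop := ∀ (L : Type) [LinearOrder L],
  (∀ (a b : L) (α β : ℤ), a ≠ b → (0 < α ∧ β ≤ 0 ∨ α < 0 ∧ 0 ≤ β) →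
    ¬ Inter (lp a α) (lp b β) (lp a 0) (lp b 0)) ∧
  (∀ (w b d : L) (ρ σ β δ : ℤ), KL w b d → ρ < σ →
    ¬ Inter (lp w (-ρ)) (lp b β) (lp w (-σ)) (lp d δ)) ∧
  (∀ (w d : L) (ρ δ : ℤ), d ≠ w → 0 < ρ → Inter (lp w 1) (lp w (-ρ)) (lp w 0) (lp d δ)) ∧
  (∀ (w b d : L) (ρ β : ℤ), KL w b d → 0 < ρ →
    Inter (lp w (-ρ)) (lp b β) (lp w 0) (lp d 0)) ∧
  (∀ (w b : L) (ρ β : ℤ), b ≠ w → 0 < ρ →
    ¬ Inter (lp w 1) (lp w 0) (lp w (-ρ)) (lp b β)) ∧
  (∀ (w b d : L), KL w b d → ¬ Inter (lp w 1) (lp b 0) (lp w 0) (lp d 0)) ∧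
  (∀ (w c d : L) (α β γ δ : ℤ), w ≠ c → w ≠ d →
    ¬ Inter (lp w α) (lp w β) (lp c γ) (lp d δ))

/-- KLT. `KL w` is a strict total order on the points different from `w`, and is compatible
with `lp · 0`. -/
def KLT_S : Prop := ∀ (L : Type) [LinearOrder L] (w : L),
  (∀ c, ¬ KL w c c) ∧ (∀ c d e, KL w c d → KL w d e → KL w c e) ∧
  (∀ c d, c ≠ w → d ≠ w → c ≠ d → KL w c d ∨ KL w d c) ∧
  (∀ c d, KL w c d → c ≠ w ∧ d ≠ w ∧ c ≠ d) ∧
  (∀ c d, KL (lp w 0) (lp c 0) (lp d 0) ↔ KL w c d)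

/-! ### Lists of arcs -/

/-- ARV. Reversing a chain. Induction on `l` with `arcs` of `l ++ [x]`. -/
def ARV_S : Prop := ∀ (L : Type) (l : List L) (s t : Bool) (a b : L),
  (t, a, b) ∈ arcs s l → (t, b, a) ∈ arcs (xor s (Nat.bodd l.length)) l.reverse

/-- ARM. `arcs` of a mapped list, and of a list with negated side. -/
def ARM_S : Prop := ∀ (L M : Type) (f : L → M) (l : List L) (s : Bool),
  arcs s (l.map f) = (arcs s l).map (fun A => (A.1, f A.2.1, f A.2.2)) ∧
  arcs (!s) l = (arcs s l).map (fun A => (!A.1, A.2.1, A.2.2))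

/-- ARN. Arcs of a chain without repetitions. -/
def ARN_S : Prop := ∀ (L : Type) (l : List L) (s : Bool), l.Nodup →
  (∀ t a b, (t, a, b) ∈ arcs s l → a ∈ l ∧ b ∈ l ∧ a ≠ b) ∧
  (∀ t a b t' c d, (t, a, b) ∈ arcs s l → (t', c, d) ∈ arcs s l →
    (a = c → t = t' ∧ b = d) ∧ (b = d → t = t' ∧ a = c) ∧ (b = c → t' = !t) ∧
    (a = d → t = !t') ∧
    (t = t' → ¬ (a = c ∧ b = d) → a ≠ c ∧ a ≠ d ∧ b ≠ c ∧ b ≠ d))

/-- AHD. First and last arc of a chain. -/
def AHD_S : Prop := ∀ (L : Type) (h : L) (m : List L) (z : L) (s : Bool),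
  (h :: (m ++ [z])).Nodup →
  (s, h, m.headD z) ∈ arcs s (h :: (m ++ [z])) ∧
  ∀ t a b, (t, a, b) ∈ arcs s (h :: (m ++ [z])) →
    b ≠ h ∧ a ≠ z ∧ (a = h → t = s ∧ b = m.headD z)

/-- KIT. Consequences of `Good` used everywhere (needs ARN, AHD). -/
def KIT_S : Prop := ∀ (L : Type) [LinearOrder L] (n : ℕ) (D : Diag L), Good n D →
  (∀ x < n, ∀ y < n, x ≠ y → (D.P x y).Nodup ∧ D.nx x y ≠ D.pos x ∧
    (D.S x y, D.pos x, D.nx x y) ∈ D.A x y ∧
    (∀ t a b, (t, a, b) ∈ D.A x y → a ∈ D.P x y ∧ b ∈ D.P x y ∧ a ≠ b ∧ b ≠ D.pos x ∧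
      a ≠ D.pos y ∧ (a = D.pos x → t = D.S x y ∧ b = D.nx x y)) ∧
    (∀ t a b c d, (t, a, b) ∈ D.A x y → (t, c, d) ∈ D.A x y → ¬ (a = c ∧ b = d) →
      a ≠ c ∧ a ≠ d ∧ b ≠ c ∧ b ≠ d)) ∧
  (∀ x < n, ∀ y < n, ∀ z < n, ∀ t < n, x ≠ y → z ≠ t → ¬ (x = z ∧ y = t) →
    ¬ (x = t ∧ y = z) → ∀ c, c ∈ D.P x y → c ∈ D.P z t →
      (c = D.pos x ∧ (x = z ∨ x = t)) ∨ (c = D.pos y ∧ (y = z ∨ y = t))) ∧
  (∀ x < n, ∀ y < n, ∀ z < n, x ≠ y → x ≠ z → y ≠ z → D.nx x y ≠ D.nx x z)

/-! ### Cloning -/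

/-- CLA. The arcs of the edge from the clone `n` to `x`.
The clone of `w` is at `w+1`.  Its edge to `x` leaves downward.  If `w x` leaves `w` downward,
it follows it on the left.  If `w x` leaves `w` upward, it first goes (small lower arc) to
`w - r x`, and then follows `w x` on the left.  On the left means: shift `+1` where the curve
crosses the spine downward (after an upper arc), `-1` where it crosses upward.  Unfold
`clone, Diag.A, Diag.P, newE`, and prove by induction `arcs s (shift ...)` for the tail. -/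
def CLA_S : Prop := ∀ (L : Type) [LinearOrder L] (n : ℕ) (D : Diag L) (w x : ℕ) (r : ℕ → ℤ),
  Good n D → w < n → x < n → x ≠ w →
  (clone D n w r).A n x =
    (if D.S w x = true then
      [((false, lp (D.pos w) 1, lp (D.pos w) (- r x)) : Arc (L ×ₗ ℤ))] else []) ++
      (D.A w x).map (la D w r x)

/-- CLB. The edge from the clone to `w`, the old edges, and reversal. -/
def CLB_S : Prop := ∀ (L : Type) [LinearOrder L] (n : ℕ) (D : Diag L) (w : ℕ) (r : ℕ → ℤ),
  w < n →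
  (clone D n w r).A n w = [((true, lp (D.pos w) 1, lp (D.pos w) 0) : Arc (L ×ₗ ℤ))] ∧
  (∀ x < n, ∀ y < n, (clone D n w r).A x y = (D.A x y).map l0) ∧
  (∀ x < n, ∀ t a b, (t, a, b) ∈ (clone D n w r).A n x →
    (t, b, a) ∈ (clone D n w r).A x n) ∧
  (∀ x < n, ∀ t a b, (t, a, b) ∈ (clone D n w r).A x n →
    (t, b, a) ∈ (clone D n w r).A n x)

/-- OLD. Old arcs, and reversal of orientation. -/
def OLD_S : Prop := ∀ (L : Type) [LinearOrder L],
  (∀ α β : List (Arc L), (NC (α.map l0) (β.map l0) ↔ NC α β) ∧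
    (AM (α.map l0) (β.map l0) ↔ AM α β) ∧ (EX (α.map l0) (β.map l0) ↔ EX α β)) ∧
  (∀ α α' β : List (Arc L), (∀ t a b, (t, a, b) ∈ α → (t, b, a) ∈ α') →
    (∀ t a b, (t, a, b) ∈ α' → (t, b, a) ∈ α) →
    (NC α β ↔ NC α' β) ∧ (NC β α ↔ NC β α') ∧ (AM α β ↔ AM α' β) ∧ (AM β α ↔ AM β α') ∧
    (EX α β ↔ EX α' β) ∧ (EX β α ↔ EX β α')) ∧
  (∀ α β : List (Arc L), (NC α β ↔ NC β α) ∧ (AM α β ↔ AM β α) ∧ (EX α β ↔ EX β α))

/-- CNN. Two new edges do not cross.  Cases `y = w`, `z = w`: LOC (5).  Otherwise, two small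
arcs share `w+1`; a small arc and `la B`: if `B` is not the first arc, LOC (7) (`B` does not
touch `w`), if it is, then it is lower and starts at `w+1`, or upper; `la A`, `la B`: if not
both are first arcs PRJ (with `D.adj`), if both are: lower ones share `w+1`, upper ones LOC (2)
with `KLT` and `Ranked`. -/
def CNN_S : Prop := ∀ (L : Type) [LinearOrder L] (n : ℕ) (D : Diag L) (w : ℕ) (r : ℕ → ℤ),
  Good n D → w < n → Ranked n D w r → ∀ y < n, ∀ z < n, y ≠ z →
  NC ((clone D n w r).A n y) ((clone D n w r).A n z)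

/-- CNS. A new edge does not cross itself.  `la A`, `la B` with `A ≠ B` on the same side have
disjoint end points (KIT), PRJ and `D.self`.  The small arc is lower, then the first arc is
upper; LOC (7). -/
def CNS_S : Prop := ∀ (L : Type) [LinearOrder L] (n : ℕ) (D : Diag L) (w : ℕ) (r : ℕ → ℤ),
  Good n D → w < n → Ranked n D w r → ∀ y < n,
  NC ((clone D n w r).A n y) ((clone D n w r).A n y)

/-- CNO. A new edge `n x` and an old edge `x z` do not cross.  `x = w`: the small upper arc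
and `l0 B`: `B` touches `w`, then they share `lp w 0`, or LOC (7).  `z = w` (old edge `x w`,
reversed `w x`): parallel copy: `A = B`: LOC (1); otherwise disjoint end points or opposite
sides; small arc: LOC (7) or opposite sides.  `z, x ≠ w`: an end point can be shared only at
`x`, where `la` has shift 0; otherwise PRJ and `D.adj`; small arc: LOC (7). -/
def CNO_S : Prop := ∀ (L : Type) [LinearOrder L] (n : ℕ) (D : Diag L) (w : ℕ) (r : ℕ → ℤ),
  Good n D → w < n → Ranked n D w r → ∀ x < n, ∀ z < n, x ≠ z →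
  NC ((clone D n w r).A n x) ((clone D n w r).A x z)

/-- CN2. A new edge `n y` and an old edge `z t`, `y, z, t` distinct, cross at most once.
`y = w`: no crossing, LOC (7).  `w ∉ {y,z,t}`: `Cross (la A) (l0 B) ↔ Cross A B` by PRJ, the
small arc does not cross: LOC (7).  `w = z` (or `w = t`, after reversal): crossings only with
the first arc `B0` of `w t`: the small arc (present only if `S w y`) if `B0` is lower, and
`la A0` if `S w y = S w t`: not both. -/
def CN2_S : Prop := ∀ (L : Type) [LinearOrder L] (n : ℕ) (D : Diag L) (w : ℕ) (r : ℕ → ℤ),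
  Good n D → w < n → Ranked n D w r → ∀ y < n, ∀ z < n, ∀ t < n, y ≠ z → y ≠ t → z ≠ t →
  AM ((clone D n w r).A n y) ((clone D n w r).A z t)

/-- CNX. The new edge `n u` crosses the old edges that `w u` crosses and all edges at `w`
different from `w u`, if `w u` is the first upper edge at `w`.  LOC (3), (4), PRJ. -/
def CNX_S : Prop := ∀ (L : Type) [LinearOrder L] (n : ℕ) (D : Diag L) (w u : ℕ) (r : ℕ → ℤ),
  Good n D → w < n → u < n → u ≠ w → Ranked n D w r → FirstUp D n w u →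
  (∀ z < n, ∀ t < n, z ≠ t → z ≠ w → z ≠ u → t ≠ w → t ≠ u → EX (D.A w u) (D.A z t) →
    EX ((clone D n w r).A n u) ((clone D n w r).A z t)) ∧
  (∀ t < n, t ≠ w → t ≠ u → EX ((clone D n w r).A n u) ((clone D n w r).A w t))

/-- CGP. The fields of `Good (n+1) (clone ...)` on points. -/
def CGP_S : Prop := ∀ (L : Type) [LinearOrder L] (n : ℕ) (D : Diag L) (w : ℕ) (r : ℕ → ℤ),
  Good n D → w < n → Ranked n D w r →
  (∀ x < n + 1, ∀ y < n + 1, (clone D n w r).pos x = (clone D n w r).pos y → x = y) ∧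
  (∀ x < n + 1, ∀ y < n + 1, ∀ z < n + 1, x ≠ y →
    (clone D n w r).pos z ∉ (clone D n w r).E x y) ∧
  (∀ x < n + 1, ∀ y < n + 1, x ≠ y → ((clone D n w r).E x y).Nodup) ∧
  (∀ x < n + 1, ∀ y < n + 1, x ≠ y → ∀ c, c ∈ (clone D n w r).E x y →
    c ∈ (clone D n w r).E y x)

/-- CGJ. The field `disj` for the clone.  A point of a new edge is `lp w (- r x)` with `x` an
upper neighbour (`r` is injective on them), or `lp c (±1)` with `c ∈ E w x`. -/
def CGJ_S : Prop := ∀ (L : Type) [LinearOrder L] (n : ℕ) (D : Diag L) (w : ℕ) (r : ℕ → ℤ),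
  Good n D → w < n → Ranked n D w r →
  (∀ x < n + 1, ∀ y < n + 1, ∀ z < n + 1, ∀ t < n + 1, x ≠ y → z ≠ t → ∀ c,
    c ∈ (clone D n w r).E x y → c ∈ (clone D n w r).E z t →
    (x = z ∧ y = t) ∨ (x = t ∧ y = z))

/-- CGD. The clone is good (assembly, needs OLD CLB CNN CNS CNO CN2 CGP CGJ). -/
def CGD_S : Prop := ∀ (L : Type) [LinearOrder L] (n : ℕ) (D : Diag L) (w : ℕ) (r : ℕ → ℤ),
  Good n D → w < n → Ranked n D w r → Good (n + 1) (clone D n w r)

/-- CTH. The new edge `n u` crosses all independent edges of the tree (needs OLD CLB CNX). -/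
def CTH_S : Prop := ∀ (L : Type) [LinearOrder L] (n : ℕ) (D : Diag L) (w u : ℕ) (r : ℕ → ℤ)
  (T : ℕ → ℕ → Prop), (∀ x y, T x y → x < n ∧ y < n) → Good n D → Thr T n D → w < n → u < n →
  u ≠ w → (T w u ∨ T u w) → Ranked n D w r → FirstUp D n w u →
  Thr (addE T n u) (n + 1) (clone D n w r)

/-- RNK. A rank function exists: `r x = 1 +` number of upper `y` before `x` (KLT). -/
def RNK_S : Prop := ∀ (L : Type) [LinearOrder L] (n : ℕ) (D : Diag L) (w : ℕ), Good n D →
  w < n → ∃ r : ℕ → ℤ, Ranked n D w r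

/-! ### Twisting and flipping -/

/-- TWA. Arcs of the twisted diagram (like CLA, CLB). -/
def TWA_S : Prop := ∀ (L : Type) [LinearOrder L] (n : ℕ) (D : Diag L) (w x : ℕ),
  Good n D → w < n → x < n → x ≠ w → D.S w x = true →
  ((twist D w x).A w x =
    ((false, lp (D.pos w) 0, lp (D.pos w) 1) : Arc (L ×ₗ ℤ)) :: (D.A w x).map (ta D w)) ∧
  (∀ t a b, (t, a, b) ∈ (twist D w x).A w x ↔ (t, b, a) ∈ (twist D w x).A x w) ∧
  (∀ y z, ¬ (y = w ∧ z = x) → ¬ (y = x ∧ z = w) →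
    (twist D w x).A y z = (D.A y z).map l0)

/-- TWC. The twisted edge: crossings with itself and with the other edges, as before.
LOC (6), (7), PRJ. -/
def TWC_S : Prop := ∀ (L : Type) [LinearOrder L] (n : ℕ) (D : Diag L) (w x : ℕ),
  Good n D → w < n → x < n → x ≠ w → FirstUp D n w x →
  NC ((twist D w x).A w x) ((twist D w x).A w x) ∧
  (∀ z < n, z ≠ w → z ≠ x → NC ((twist D w x).A w x) ((twist D w x).A w z)) ∧
  (∀ z < n, z ≠ w → z ≠ x → NC ((twist D w x).A w x) ((twist D w x).A x z)) ∧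
  (∀ z < n, ∀ t < n, z ≠ t → z ≠ w → z ≠ x → t ≠ w → t ≠ x →
    AM ((twist D w x).A w x) ((twist D w x).A z t)) ∧
  (∀ z < n, ∀ t < n, z ≠ t → z ≠ w → z ≠ x → t ≠ w → t ≠ x → EX (D.A w x) (D.A z t) →
    EX ((twist D w x).A w x) ((twist D w x).A z t))

/-- TGD. The twisted diagram is good (needs OLD TWA TWC). -/
def TGD_S : Prop := ∀ (L : Type) [LinearOrder L] (n : ℕ) (D : Diag L) (w x : ℕ),
  Good n D → w < n → x < n → x ≠ w → FirstUp D n w x → Good n (twist D w x)

/-- TTH. (needs OLD TWA TWC) -/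
def TTH_S : Prop := ∀ (L : Type) [LinearOrder L] (n : ℕ) (D : Diag L) (w x : ℕ)
  (T : ℕ → ℕ → Prop), Good n D → Thr T n D → w < n → x < n → x ≠ w → FirstUp D n w x →
  Thr T n (twist D w x)

/-- FLP. The mirror image is good (needs ARM). -/
def FLP_S : Prop := ∀ (L : Type) [LinearOrder L] (n : ℕ) (D : Diag L) (T : ℕ → ℕ → Prop),
  Good n D → Thr T n D → Good n (flip D) ∧ Thr T n (flip D)

/-- ARR. Make `w u` the first upper edge at `w`: flip if it is lower; then, by induction on the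
number of upper edges before `w u`, twist the first upper edge (needs KLT TGD TTH FLP KIT;
a first upper edge exists since `KL` is a strict total order on the finitely many `nx w y`). -/
def ARR_S : Prop := ∀ (L : Type) [LinearOrder L] (n : ℕ) (D : Diag L) (T : ℕ → ℕ → Prop)
  (w u : ℕ), Good n D → Thr T n D → w < n → u < n → u ≠ w →
  ∃ (L' : Type) (_ : LinearOrder L') (D' : Diag L'), Good n D' ∧ Thr T n D' ∧
    FirstUp D' n w u

/-- CVX. The convex drawing: `pos x = x`, all edges one upper arc. -/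
def CVX_S : Prop := ∀ n : ℕ, Good n (⟨fun x => x, fun _ _ => [], fun _ _ => true⟩ : Diag ℕ)

/-- MAI. All trees (needs ARR RNK CGD CTH CVX).  Induction on `n ≥ 2`; the new vertex `n` with
parent `u = p n`, `w = if u = 0 then 1 else p u` (note `p 1 = 0`).  Restrict `T` to `x, y < n`
to apply CTH. -/
def MAI_S : Prop := ∀ (p : ℕ → ℕ), (∀ i, 1 ≤ i → p i < i) → ∀ n : ℕ,
  ∃ (L : Type) (_ : LinearOrder L) (D : Diag L), Good n D ∧ Thr (parT p) n D

/-! ### Geometry -/

/-- GEN. A generic strictly increasing sequence: by induction on `N`, keep the first `N` terms,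
choose the next one larger and outside a finite set, and continue with steps 1: for five
distinct earlier points `b, c, d, e, f`, `det6 a b c d e f` is affine in `a` and not
identically zero: the coefficient of `a` is `(c*d - e*f) - b*((c+d) - (e+f))`, the constant
term `b*(c*d-e*f) + (c+d)*(e*f) - (e+f)*(c*d)`; if both vanish, then
`((c+d) - (e+f)) * ((b-e)*(b-f)) = 0`, so `c+d = e+f` and `c*d = e*f`, impossible.  (`det6` is
symmetric in each pair and changes sign when two pairs are exchanged, so the new point may be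
assumed to be `a`.) -/
def GEN_S : Prop := ∀ N : ℕ, ∃ g : ℕ → ℝ, StrictMono g ∧ Generic (fun c => ∃ i < N, c = g i)

/-- TRF. Transfer to generic real points: finitely many points are used, `h = g ∘ rank` is
strictly monotone on them (needs GEN, ARM). -/
def TRF_S : Prop := ∀ (L : Type) [LinearOrder L] (n : ℕ) (D : Diag L) (T : ℕ → ℕ → Prop),
  Good n D → Thr T n D → ∃ D' : Diag ℝ, Good n D' ∧ Thr T n D' ∧ Generic (Pt n D')

/-- PAR. A parabolic arc is a simple curve: `t ↦ (a+t(b-a), ± t(1-t)(b-a)^2)`. -/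
def PAR_S : Prop := ∀ (s : Bool) (a b : ℝ), a ≠ b → SimpleCurve (arcSet s a b) (a, 0) (b, 0)

/-- CAT. Concatenation of simple curves (`Path.trans`, `Path.trans_range`). -/
def CAT_S : Prop := ∀ (X Y : Set (ℝ × ℝ)) (p q r : ℝ × ℝ), SimpleCurve X p q →
  SimpleCurve Y q r → X ∩ Y = {q} → SimpleCurve (X ∪ Y) p r

/-- IN1. Interleaving arcs on the same side have exactly one common point.  The difference of
the two quadratic functions is affine. -/
def IN1_S : Prop := ∀ (s : Bool) (a b c d : ℝ), Inter a b c d →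
  ∃ p : ℝ × ℝ, p.2 ≠ 0 ∧ arcSet s a b ∩ arcSet s c d = {p}

/-- IN0. Arcs that do not cross meet only in common end points. -/
def IN0_S : Prop := ∀ (s s' : Bool) (a b c d : ℝ), a ≠ b → c ≠ d →
  ¬ (s = s' ∧ Inter a b c d) → ¬ (s = s' ∧ a = c ∧ b = d) → ¬ (s = s' ∧ a = d ∧ b = c) →
  ∀ p, p ∈ arcSet s a b → p ∈ arcSet s' c d →
    p.2 = 0 ∧ (p.1 = a ∨ p.1 = b) ∧ (p.1 = c ∨ p.1 = d)

/-- EPT. End points; arcs are closed sets; concurrency. -/
def EPT_S : Prop := ∀ (s : Bool) (a b : ℝ),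
  ((a, (0 : ℝ)) ∈ arcSet s a b ∧ (b, (0 : ℝ)) ∈ arcSet s a b ∧ IsClosed (arcSet s a b) ∧
    arcSet s a b = arcSet s b a) ∧
  (∀ p ∈ arcSet s a b, p.2 = 0 ↔ p.1 = a ∨ p.1 = b) ∧
  (∀ c d e f : ℝ, ∀ p, p ∈ arcSet s a b → p ∈ arcSet s c d → p ∈ arcSet s e f →
    det6 a b c d e f = 0)

/-- CUR. A chain of arcs is a simple curve (needs PAR CAT IN0 EPT ARN). Induction on the list. -/
def CUR_S : Prop := ∀ (h : ℝ) (m : List ℝ) (z : ℝ) (s : Bool), (h :: (m ++ [z])).Nodup →
  NC (arcs s (h :: (m ++ [z]))) (arcs s (h :: (m ++ [z]))) →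
  SimpleCurve (curve (arcs s (h :: (m ++ [z])))) (h, 0) (z, 0)

/-- PRO. Two interleaving arcs cross properly.  `Φ (x, y) = (y - g x, y - f x)` (up to the
side), which is a homeomorphism because the difference of the two quadratic functions is affine
with non-zero slope, composed with nothing else; `U` is the intersection of the open half plane
`± y > 0` with the complements of the other (finitely many, closed) arcs. -/
def PRO_S : Prop := ∀ (α β : List (Arc ℝ)) (A B : Arc ℝ) (p : ℝ × ℝ), A ∈ α → B ∈ β →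
  Cross A B → p ∈ arcSet A.1 A.2.1 A.2.2 → p ∈ arcSet B.1 B.2.1 B.2.2 →
  (∀ A' ∈ α, p ∈ arcSet A'.1 A'.2.1 A'.2.2 → A' = A) →
  (∀ B' ∈ β, p ∈ arcSet B'.1 B'.2.1 B'.2.2 → B' = B) →
  ProperCrossing (curve α) (curve β) p

/-- CPP. Two different edges of a good generic diagram (needs KIT IN0 IN1 EPT PRO).  A common
point with `p.2 = 0` is a common vertex.  A common point with `p.2 ≠ 0` comes from a crossing
pair of arcs; there is at most one such pair if the edges are independent, and none if they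
are adjacent. -/
def CPP_S : Prop := ∀ (n : ℕ) (D : Diag ℝ), Good n D → ∀ x < n, ∀ y < n, ∀ z < n, ∀ t < n,
  x ≠ y → z ≠ t → ¬ (x = z ∧ y = t) → ¬ (x = t ∧ y = z) →
  (curve (D.A x y) ∩ curve (D.A z t)).Subsingleton ∧
  ∀ p, p ∈ curve (D.A x y) → p ∈ curve (D.A z t) →
    (p.2 = 0 ∧ ∃ v, (v = x ∨ v = y) ∧ (v = z ∨ v = t) ∧ p = (D.pos v, 0)) ∨
    (p.2 ≠ 0 ∧ (∃ A ∈ D.A x y, ∃ B ∈ D.A z t, Cross A B ∧ p ∈ arcSet A.1 A.2.1 A.2.2 ∧
      p ∈ arcSet B.1 B.2.1 B.2.2) ∧ ProperCrossing (curve (D.A x y)) (curve (D.A z t)) p)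

/-- CPT. No three edges of a generic good diagram have a common point off the spine (needs CPP
KIT EPT INB): three arcs, pairwise crossing, have six different end points. -/
def CPT_S : Prop := ∀ (n : ℕ) (D : Diag ℝ), Good n D → Generic (Pt n D) →
  ∀ x < n, ∀ y < n, ∀ z < n, ∀ t < n, ∀ u < n, ∀ v < n, x ≠ y → z ≠ t → u ≠ v →
  ¬ (x = z ∧ y = t) → ¬ (x = t ∧ y = z) → ¬ (x = u ∧ y = v) → ¬ (x = v ∧ y = u) →
  ¬ (z = u ∧ t = v) → ¬ (z = v ∧ t = u) →
  ∀ p, p ∈ curve (D.A x y) → p ∈ curve (D.A z t) → p ∈ curve (D.A u v) → p.2 = 0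

/-- CPV. The points of an edge on the spine (needs EPT KIT): `p.1 ∈ P x y`; so an edge passes
through no other vertex. -/
def CPV_S : Prop := ∀ (n : ℕ) (D : Diag ℝ), Good n D → ∀ x < n, ∀ y < n, x ≠ y →
  (D.pos x, (0 : ℝ)) ∈ curve (D.A x y) ∧ (D.pos y, (0 : ℝ)) ∈ curve (D.A x y) ∧
  (∀ p ∈ curve (D.A x y), p.2 = 0 → p.1 ∈ D.P x y) ∧
  (∀ z < n, (D.pos z, (0 : ℝ)) ∈ curve (D.A x y) → z = x ∨ z = y) ∧
  curve (D.A y x) = curve (D.A x y)

/-- DRW. The drawing (needs CUR CPP CPT CPV IN1 KIT). `arc q = {p | ∃ u v, q = s(u,v) ∧ u ≠ v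
∧ p ∈ curve (D.A (e u) (e v))}`. -/
def DRW_S : Prop := ∀ (V : Type) (n : ℕ) (e : V → ℕ) (D : Diag ℝ) (T : ℕ → ℕ → Prop),
  Function.Injective e → (∀ v, e v < n) → Good n D → Thr T n D → Generic (Pt n D) →
  ∃ Dr : Drawing (⊤ : SimpleGraph V), ∀ u v u' v' : V, u ≠ v → u' ≠ v' → u ≠ u' → u ≠ v' →
    v ≠ u' → v ≠ v' → (T (e u) (e v) ∨ T (e v) (e u)) → (T (e u') (e v') ∨ T (e v') (e u')) →
    Dr.Crosses s(u, v) s(u', v')

/-! ### Graphs -/

/-- ORD. A forest can be ordered so that every vertex has at most one earlier neighbour.  For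
instance: extend to a tree (`SimpleGraph.exists_isAcyclic_reachable_eq_le_of_le_of_isAcyclic`
or similar), and remove leaves; or directly, induction on the number of vertices with a vertex
of degree at most 1. -/
def ORD_S : Prop := ∀ (V : Type) [Fintype V] (F : SimpleGraph V), F.IsAcyclic →
  ∃ (e : V ≃ Fin (Fintype.card V)) (p : ℕ → ℕ), (∀ i, 1 ≤ i → p i < i) ∧
    ∀ x y, F.Adj x y → parT p (e x) (e y) ∨ parT p (e y) (e x)

/-- MPA. The image of a forest under an injection is a forest. -/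
def MPA_S : Prop := ∀ (W V : Type) (F : SimpleGraph W) (φ : W ↪ V), F.IsAcyclic →
  (F.map φ).IsAcyclic

/-- TOP. Every forest is a thrackle in some drawing of the complete graph
(needs ORD MAI TRF DRW). -/
def TOP_S : Prop := ∀ (V : Type) [Fintype V] (F : SimpleGraph V), F.IsAcyclic →
  ∃ Dr : Drawing (⊤ : SimpleGraph V), ∀ e ∈ F.edgeSet, ∀ f ∈ F.edgeSet,
    (∀ v, ¬ (v ∈ e ∧ v ∈ f)) → Dr.Crosses e f

/-- RST. A drawing of the complete graph restricts to every graph. -/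
def RST_S : Prop := ∀ (V : Type) (G : SimpleGraph V) (Dr : Drawing (⊤ : SimpleGraph V)),
  ∃ Dg : Drawing G, ∀ e f, Dr.Crosses e f → Dg.Crosses e f

/-- UPB. Crossing edges are independent, and there are at most `indepPairs G` crossings. -/
def UPB_S : Prop := ∀ (V : Type) [Fintype V] (G : SimpleGraph V) (D : Drawing G),
  (∀ e ∈ G.edgeSet, ∀ f ∈ G.edgeSet, e ≠ f → D.Crosses e f → ∀ v, ¬ (v ∈ e ∧ v ∈ f)) ∧
  D.cr ≤ indepPairs G

/-- FIN. The result (needs TOP MPA RST UPB). -/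
def FIN_S : Prop := ∀ (W V : Type) [Fintype W] [Fintype V] (F : SimpleGraph W)
  (G : SimpleGraph V) (φ : W → V), F.IsAcyclic → Function.Injective φ →
  (∀ a b, F.Adj a b → G.Adj (φ a) (φ b)) →
  (∃ D : Drawing G, ∀ e ∈ F.edgeSet, ∀ f ∈ F.edgeSet, (∀ v, ¬ (v ∈ e ∧ v ∈ f)) →
    D.Crosses (e.map φ) (f.map φ)) ∧
  maxCr F = indepPairs F ∧ maxCr F ≤ maxCr G

end Pool.MCR
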