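import Pool.Agent.H88.MCR.Stmts

/-!
Second part: graphs with at most one cycle, not of length 4.
-/

namespace Pool.MCR

/-- The cycle `0, 1, …, m-1`. -/
def cycT (m : ℕ) : ℕ → ℕ → Prop :=
  fun x y => (y = x + 1 ∧ y < m) ∨ (x + 1 = m ∧ y = 0 ∧ 3 ≤ m)

/-- The cycle `0, …, m-1` with the additional edges `x, p x`, `x ≥ m`. -/
def uniT (m : ℕ) (p : ℕ → ℕ) : ℕ → ℕ → Prop :=
  fun x y => cycT m x y ∨ (m ≤ x ∧ 1 ≤ x ∧ y = p x)

/-- `T` with the edge `u v` replaced by the path `u, n, n+1, v`. -/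
def repE (T : ℕ → ℕ → Prop) (n u v : ℕ) : ℕ → ℕ → Prop := fun x y =>
  (T x y ∧ ¬ (x = u ∧ y = v) ∧ ¬ (x = v ∧ y = u)) ∨ (x = u ∧ y = n) ∨
    (x = n ∧ y = n + 1) ∨ (x = n + 1 ∧ y = v)

/-- A simple drawing of `K_6` in which the 6-cycle is a thrackle. -/
def B6 : Diag ℕ where
  pos x := if x = 0 then 6 else if x = 1 then 8 else if x = 2 then 2 else if x = 3 then 5
    else if x = 4 then 0 else 3
  E x y := if (x = 0 ∧ y = 1) ∨ (x = 1 ∧ y = 0) then [4]
    else if (x = 0 ∧ y = 5) ∨ (x = 5 ∧ y = 0) then [1]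
    else if (x = 4 ∧ y = 5) ∨ (x = 5 ∧ y = 4) then [7] else []
  S x y :=
    if x = 0 then decide (y = 3)
    else if x = 1 then decide (y ≠ 2)
    else if x = 2 then decide (y = 3 ∨ y = 4)
    else if x = 3 then decide (y = 0 ∨ y = 1 ∨ y = 2)
    else if x = 4 then decide (y = 1 ∨ y = 2)
    else decide (y = 0 ∨ y = 1 ∨ y = 4)

/-- A forest, or a graph that becomes a forest after deleting one edge and has no 4-cycle. -/
def OneCyc {V : Type} (F : SimpleGraph V) : Prop :=
  F.IsAcyclic ∨ ∃ e0 ∈ F.edgeSet, (F.deleteEdges {e0}).IsAcyclic ∧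
    ∀ (v : V) (c : F.Walk v v), c.IsCycle → c.length ≠ 4

/-- CNG. General form of CNX (copy of the proof of CNX): the new edge `n x` crosses every edge
that `w x` crosses, and every lower edge at `w`, and every later upper edge at `w`. -/
def CNG_S : Prop := ∀ (L : Type) [LinearOrder L] (n : ℕ) (D : Diag L) (w x : ℕ) (r : ℕ → ℤ),
  Good n D → w < n → x < n → x ≠ w → Ranked n D w r →
  (∀ z < n, ∀ t < n, z ≠ t → z ≠ w → z ≠ x → t ≠ w → t ≠ x → EX (D.A w x) (D.A z t) →
    EX ((clone D n w r).A n x) ((clone D n w r).A z t)) ∧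
  (D.S w x = true → ∀ t < n, t ≠ w → t ≠ x →
    (D.S w t = false ∨ KL (D.pos w) (D.nx w x) (D.nx w t)) →
    EX ((clone D n w r).A n x) ((clone D n w r).A w t))

/-- NXK. If the first coordinates of the first points after `u` and the sides at `u` do not
change, then `FirstUp` at `u` is preserved (comparisons are decided by the first coordinate,
because `nx u v`, `nx u y`, `pos u` are different: KIT). -/
def NXK_S : Prop := ∀ (L : Type) [LinearOrder L] (n : ℕ) (D : Diag L) (D' : Diag (L ×ₗ ℤ))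
  (u v : ℕ), Good n D → u < n → v < n → u ≠ v → D'.pos u = lp (D.pos u) 0 →
  (∀ y < n, y ≠ u → D'.S u y = D.S u y ∧ ∃ k : ℤ, D'.nx u y = lp (D.nx u y) k) →
  FirstUp D n u v → FirstUp D' n u v

/-- TWU. Effect of twisting `w x` at `w` on the other vertices, and on the other edges at `w`.
For the edge `x w`: the side of its first arc is the side of the last arc of `w x` (`symA` and
KIT), and its first point is the last interior point of `w x`, or `lp w 1` if there is none. -/
def TWU_S : Prop := ∀ (L : Type) [LinearOrder L] (n : ℕ) (D : Diag L) (w x : ℕ),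
  Good n D → w < n → x < n → x ≠ w → D.S w x = true →
  (∀ u < n, u ≠ w → (twist D w x).pos u = lp (D.pos u) 0 ∧
    ∀ y < n, y ≠ u → (twist D w x).S u y = D.S u y ∧
      ∃ k : ℤ, (twist D w x).nx u y = lp (D.nx u y) k) ∧
  ((twist D w x).pos w = lp (D.pos w) 0 ∧ (twist D w x).S w x = false ∧
    (twist D w x).nx w x = lp (D.pos w) 1 ∧
    ∀ y < n, y ≠ w → y ≠ x → (twist D w x).S w y = D.S w y ∧
      (twist D w x).nx w y = lp (D.nx w y) 0)

/-- CLU. Effect of cloning `v` (new vertex `n`) on a vertex `u ≠ v`, when `v u` leaves `v`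
upward and `u v` leaves `u` downward: then the number `k` of interior points of `v u` is odd,
and the copy of the last one is shifted by `+1`. -/
def CLU_S : Prop := ∀ (L : Type) [LinearOrder L] (n : ℕ) (D : Diag L) (v u : ℕ) (r : ℕ → ℤ),
  Good n D → v < n → u < n → u ≠ v → Ranked n D v r → D.S v u = true → D.S u v = false →
  (clone D n v r).pos u = lp (D.pos u) 0 ∧
  (∀ y < n, y ≠ u → (clone D n v r).S u y = D.S u y ∧
    (clone D n v r).nx u y = lp (D.nx u y) 0) ∧
  (clone D n v r).S u n = false ∧ (clone D n v r).nx u n = lp (D.nx u v) 1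

/-- AR2. Both ends of an edge (needs KIT KLT TGD TTH FLP ARR NXK TWU).
First ARR for `flip D` at `u`: then `FirstUp (flip D) n u v`.  Then rotate at `v`, which keeps
this (TWU, NXK, also for the flipped diagrams).  If `v u` is upper at `v`: twist the first upper
edge at `v` as long as it is not `v u`.  If it is lower: do this in `flip D` until `v u` is the
first upper edge of `flip D` at `v`, twist it too, and flip back: now it is upper at `v` with
`nx = pos v + 1`, so it is the first one. -/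
def AR2_S : Prop := ∀ (L : Type) [LinearOrder L] (n : ℕ) (D : Diag L) (T : ℕ → ℕ → Prop)
  (u v : ℕ), Good n D → Thr T n D → u < n → v < n → u ≠ v →
  ∃ (L' : Type) (_ : LinearOrder L') (D' : Diag L'), Good n D' ∧ Thr T n D' ∧
    FirstUp D' n v u ∧ FirstUp (flip D') n u v

/-- STC. Replacing an edge by a path of length 3 (needs AR2 RNK CGD FLP CLU CNG OLD CLB KLT
KIT).  Take `D` as in AR2.  `C = clone D n v r`; the new vertex is `n`.  By CLU, in `flip C` the
edge `u v` is the first upper edge at `u`, and `u n` is the second one.  `D' = clone (flip C)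
(n+1) u r'`.  Crossings: `u n` crosses what `v u` crosses and all `v x`, `x ≠ u` (CNG for `C`,
and the edge `v u` is the first upper one at `v`); `(n+1) v` crosses what `u v` crosses and all
`u y`, `y ≠ v`, including `u n` (CNG for `D'`, first upper edge); `(n+1) n` crosses what `u n`
crosses and all `u y`, `y ≠ v, n` (CNG for `D'`, second upper edge). -/
def STC_S : Prop := ∀ (L : Type) [LinearOrder L] (n : ℕ) (D : Diag L) (T : ℕ → ℕ → Prop)
  (u v : ℕ), (∀ x y, T x y → x < n ∧ y < n) → Good n D → Thr T n D → u < n → v < n → u ≠ v →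
  (T u v ∨ T v u) →
  ∃ (L' : Type) (_ : LinearOrder L') (D' : Diag L'), Good (n + 2) D' ∧
    Thr (repE T n u v) (n + 2) D'

/-- B6G. The base case (finite check; `Inter` on `ℕ` is decidable after unfolding; interval
cases or a Boolean checker). -/
def B6G_S : Prop := Good 6 B6 ∧ Thr (cycT 6) 6 B6

/-- CYC. All cycles except the 4-cycle (needs CVX B6G STC): `m = 3`: CVX (no four vertices);
`m = 6`: B6G; `m → m+2`: STC with `u = m-1`, `v = 0`; every edge of `cycT (m+2)` is an edge of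
`repE (cycT m) m (m-1) 0`. -/
def CYC_S : Prop := ∀ m : ℕ, 3 ≤ m → m ≠ 4 →
  ∃ (L : Type) (_ : LinearOrder L) (D : Diag L), Good m D ∧ Thr (cycT m) m D

/-- MAU. (needs CYC ARR RNK CGD CTH) Like MAI: the new vertex `n ≥ m` with parent `u = p n`,
`w` a neighbour of `u`: if `u + 1 < m` then `u + 1`, if `u + 1 = m` then `0`, else `p u`. -/
def MAU_S : Prop := ∀ (m : ℕ) (p : ℕ → ℕ), 3 ≤ m → m ≠ 4 → (∀ i, 1 ≤ i → p i < i) →
  ∀ n : ℕ, m ≤ n → ∃ (L : Type) (_ : LinearOrder L) (D : Diag L), Good n D ∧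
    Thr (uniT m p) n D

/-- ORA. Growing step: `T` a tree on a finite type, `S` a nonempty set with `T.induce S`
connected, `S ≠ univ`: there is `v ∉ S` with exactly one neighbour in `S`, and
`T.induce (insert v S)` is connected. -/
def ORA_S : Prop := ∀ (V : Type) [Fintype V] (T : SimpleGraph V) (S : Set V), T.IsTree →
  (T.induce S).Connected → S ≠ Set.univ →
  ∃ v, v ∉ S ∧ (∃ u ∈ S, T.Adj v u ∧ ∀ u' ∈ S, T.Adj v u' → u' = u) ∧
    (T.induce (insert v S)).Connected

/-- ORB. From a forest `F - e0` and `F` not acyclic: a tree `T` on all vertices with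
`F ≤ T + e0`, and an enumeration `c 0, …, c (m-1)` of the path in `T` between the ends of `e0`
(it is a path of `F - e0`, and with `e0` a cycle of `F`, so `m ≥ 3` and `m ≠ 4`). -/
def ORB_S : Prop := ∀ (V : Type) [Fintype V] (F : SimpleGraph V) (e0 : Sym2 V),
  e0 ∈ F.edgeSet → (F.deleteEdges {e0}).IsAcyclic → ¬ F.IsAcyclic →
  (∀ (v : V) (c : F.Walk v v), c.IsCycle → c.length ≠ 4) →
  ∃ (T : SimpleGraph V) (m : ℕ) (c : Fin m → V), T.IsTree ∧ 3 ≤ m ∧ m ≠ 4 ∧
    Function.Injective c ∧ (T.induce (Set.range c)).Connected ∧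
    (∀ i j : Fin m, T.Adj (c i) (c j) ↔ ((i : ℕ) + 1 = j ∨ (j : ℕ) + 1 = i)) ∧
    (∀ x y, F.Adj x y → T.Adj x y ∨ (∃ i j : Fin m, (i : ℕ) = 0 ∧ (j : ℕ) + 1 = m ∧
      ((x = c i ∧ y = c j) ∨ (x = c j ∧ y = c i))))

/-- OR2. Order the vertices: the cycle first, every later vertex has at most one earlier
neighbour (needs ORA ORB). -/
def OR2_S : Prop := ∀ (V : Type) [Fintype V] (F : SimpleGraph V) (e0 : Sym2 V),
  e0 ∈ F.edgeSet → (F.deleteEdges {e0}).IsAcyclic → ¬ F.IsAcyclic →
  (∀ (v : V) (c : F.Walk v v), c.IsCycle → c.length ≠ 4) →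
  ∃ (m : ℕ) (e : V ≃ Fin (Fintype.card V)) (p : ℕ → ℕ), 3 ≤ m ∧ m ≠ 4 ∧
    m ≤ Fintype.card V ∧ (∀ i, 1 ≤ i → p i < i) ∧
    ∀ x y, F.Adj x y → uniT m p (e x) (e y) ∨ uniT m p (e y) (e x)

/-- MP2. The property is preserved by injections. -/
def MP2_S : Prop := ∀ (W V : Type) (F : SimpleGraph W) (φ : W ↪ V), OneCyc F →
  OneCyc (F.map φ)

/-- TO2. (needs ORD MAI OR2 MAU TRF DRW) -/
def TO2_S : Prop := ∀ (V : Type) [Fintype V] (F : SimpleGraph V), OneCyc F →
  ∃ Dr : Drawing (⊤ : SimpleGraph V), ∀ e ∈ F.edgeSet, ∀ f ∈ F.edgeSet,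
    (∀ v, ¬ (v ∈ e ∧ v ∈ f)) → Dr.Crosses e f

/-- FI2. The result (needs TO2 MP2 RST UPB). -/
def FI2_S : Prop := ∀ (W V : Type) [Fintype W] [Fintype V] (F : SimpleGraph W)
  (G : SimpleGraph V) (φ : W → V), OneCyc F → Function.Injective φ →
  (∀ a b, F.Adj a b → G.Adj (φ a) (φ b)) →
  (∃ D : Drawing G, ∀ e ∈ F.edgeSet, ∀ f ∈ F.edgeSet, (∀ v, ¬ (v ∈ e ∧ v ∈ f)) →
    D.Crosses (e.map φ) (f.map φ)) ∧
  maxCr F = indepPairs F ∧ maxCr F ≤ maxCr G

end Pool.MCR
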