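import Pool.Agent.H88.MCR.Stmts2

/-!
Third part: diagrams relative to a graph (lower bound of the counterexample to Q1 of
MP_ffb5eb_co).  `R` is the adjacency relation on the indices of the vertices.  All rows are
copies of rows of part 1 with `x ≠ y` replaced by `R x y`; the clone is now an independent
twin (the edge between `w` and its clone is not in the graph).
-/

namespace Pool.MCR

/-- `Good` relative to a symmetric irreflexive relation `R`: only the edges of `R` count. -/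
structure GoodR {L : Type} [LinearOrder L] (R : ℕ → ℕ → Prop) (n : ℕ) (D : Diag L) : Prop where
  irr : ∀ x, ¬ R x x
  sym : ∀ x y, R x y → R y x
  pos_inj : ∀ x < n, ∀ y < n, D.pos x = D.pos y → x = y
  notin : ∀ x < n, ∀ y < n, ∀ z < n, R x y → D.pos z ∉ D.E x y
  nodup : ∀ x < n, ∀ y < n, R x y → (D.E x y).Nodup
  disj : ∀ x < n, ∀ y < n, ∀ z < n, ∀ t < n, R x y → R z t → ∀ c, c ∈ D.E x y → c ∈ D.E z t →
    (x = z ∧ y = t) ∨ (x = t ∧ y = z)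
  symE : ∀ x < n, ∀ y < n, R x y → ∀ c, c ∈ D.E x y → c ∈ D.E y x
  symA : ∀ x < n, ∀ y < n, R x y → ∀ s a b, (s, a, b) ∈ D.A x y → (s, b, a) ∈ D.A y x
  adj : ∀ x < n, ∀ y < n, ∀ z < n, R x y → R x z → y ≠ z → NC (D.A x y) (D.A x z)
  self : ∀ x < n, ∀ y < n, R x y → NC (D.A x y) (D.A x y)
  two : ∀ x < n, ∀ y < n, ∀ z < n, ∀ t < n, R x y → R z t → x ≠ z → x ≠ t → y ≠ z → y ≠ t →
    AM (D.A x y) (D.A z t)

/-- `r` is a rank function for the upper edges at `w`. -/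
def RankedR {L : Type} [LinearOrder L] (R : ℕ → ℕ → Prop) (n : ℕ) (D : Diag L) (w : ℕ)
    (r : ℕ → ℤ) : Prop :=
  (∀ x, 1 ≤ r x) ∧ ∀ x < n, ∀ y < n, R w x → R w y → x ≠ y → D.S w x = true → D.S w y = true →
    KL (D.pos w) (D.nx w x) (D.nx w y) → r x < r y

/-- The new vertex `n` is a twin of `w`. -/
def TwinR (R : ℕ → ℕ → Prop) (n w : ℕ) : Prop := ∀ y < n, (R n y ↔ R w y)

/-- The points used by the edges of `R`. -/
def PtR {L : Type} (R : ℕ → ℕ → Prop) (n : ℕ) (D : Diag L) (c : L) : Prop :=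
  (∃ x < n, c = D.pos x) ∨ ∃ x < n, ∃ y < n, R x y ∧ c ∈ D.E x y

/-- LO8. Local fact for two lower edges at `w` (as LOC): exactly one of the two crossings. -/
def LO8_S : Prop := ∀ (L : Type) [LinearOrder L] (w c d : L) (γ δ : ℤ), c ≠ w → d ≠ w → c ≠ d →
  Inter (lp w 1) (lp c γ) (lp w 0) (lp d 0) ∨ Inter (lp w 1) (lp d δ) (lp w 0) (lp c 0)

/-- KIR. As KIT (helper1). -/
def KIR_S : Prop := ∀ (L : Type) [LinearOrder L] (R : ℕ → ℕ → Prop) (n : ℕ) (D : Diag L),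
  GoodR R n D →
  (∀ x < n, ∀ y < n, R x y → (D.P x y).Nodup ∧ D.nx x y ≠ D.pos x ∧
    (D.S x y, D.pos x, D.nx x y) ∈ D.A x y ∧
    (∀ t a b, (t, a, b) ∈ D.A x y → a ∈ D.P x y ∧ b ∈ D.P x y ∧ a ≠ b ∧ b ≠ D.pos x ∧
      a ≠ D.pos y ∧ (a = D.pos x → t = D.S x y ∧ b = D.nx x y)) ∧
    (∀ t a b c d, (t, a, b) ∈ D.A x y → (t, c, d) ∈ D.A x y → ¬ (a = c ∧ b = d) →
      a ≠ c ∧ a ≠ d ∧ b ≠ c ∧ b ≠ d)) ∧
  (∀ x < n, ∀ y < n, ∀ z < n, ∀ t < n, R x y → R z t → ¬ (x = z ∧ y = t) →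
    ¬ (x = t ∧ y = z) → ∀ c, c ∈ D.P x y → c ∈ D.P z t →
      (c = D.pos x ∧ (x = z ∨ x = t)) ∨ (c = D.pos y ∧ (y = z ∨ y = t))) ∧
  (∀ x < n, ∀ y < n, ∀ z < n, R x y → R x z → y ≠ z → D.nx x y ≠ D.nx x z)

/-- CLR. As CLA (helper26). -/
def CLR_S : Prop := ∀ (L : Type) [LinearOrder L] (R : ℕ → ℕ → Prop) (n : ℕ) (D : Diag L)
  (w x : ℕ) (r : ℕ → ℤ), GoodR R n D → w < n → x < n → R w x →
  (clone D n w r).A n x =
    (if D.S w x = true then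
      [((false, lp (D.pos w) 1, lp (D.pos w) (- r x)) : Arc (L ×ₗ ℤ))] else []) ++
      (D.A w x).map (la D w r x)

/-- CRN. As CNN (helper40), for two neighbours of `w`. -/
def CRN_S : Prop := ∀ (L : Type) [LinearOrder L] (R : ℕ → ℕ → Prop) (n : ℕ) (D : Diag L)
  (w : ℕ) (r : ℕ → ℤ), GoodR R n D → w < n → RankedR R n D w r → ∀ y < n, ∀ z < n,
  R w y → R w z → y ≠ z → NC ((clone D n w r).A n y) ((clone D n w r).A n z)

/-- CRS. As CNS (helper82). -/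
def CRS_S : Prop := ∀ (L : Type) [LinearOrder L] (R : ℕ → ℕ → Prop) (n : ℕ) (D : Diag L)
  (w : ℕ) (r : ℕ → ℤ), GoodR R n D → w < n → RankedR R n D w r → ∀ y < n, R w y →
  NC ((clone D n w r).A n y) ((clone D n w r).A n y)

/-- CRO. As CNO (helper23): `n x` against `x z` (`z = w` allowed). -/
def CRO_S : Prop := ∀ (L : Type) [LinearOrder L] (R : ℕ → ℕ → Prop) (n : ℕ) (D : Diag L)
  (w : ℕ) (r : ℕ → ℤ), GoodR R n D → w < n → RankedR R n D w r → ∀ x < n, ∀ z < n,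
  R w x → R x z → NC ((clone D n w r).A n x) ((clone D n w r).A x z)

/-- CR2. As CN2 (helper25). -/
def CR2_S : Prop := ∀ (L : Type) [LinearOrder L] (R : ℕ → ℕ → Prop) (n : ℕ) (D : Diag L)
  (w : ℕ) (r : ℕ → ℤ), GoodR R n D → w < n → RankedR R n D w r → ∀ y < n, ∀ z < n, ∀ t < n,
  R w y → R z t → y ≠ z → y ≠ t → AM ((clone D n w r).A n y) ((clone D n w r).A z t)

/-- CRG. As CNG (helper48) / CNX (helper54); and the twin property: for two neighbours `x, y`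
of `w` one of `n x, w y` and `n y, w x` cross.  Both upper: KLT, LOC (4); one upper: LOC (3);
both lower: LO8. -/
def CRG_S : Prop := ∀ (L : Type) [LinearOrder L] (R : ℕ → ℕ → Prop) (n : ℕ) (D : Diag L)
  (w : ℕ) (r : ℕ → ℤ), GoodR R n D → w < n → RankedR R n D w r →
  (∀ x < n, R w x → ∀ z < n, ∀ t < n, R z t → z ≠ w → z ≠ x → t ≠ w → t ≠ x →
    EX (D.A w x) (D.A z t) → EX ((clone D n w r).A n x) ((clone D n w r).A z t)) ∧
  (∀ x < n, ∀ y < n, R w x → R w y → x ≠ y →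
    EX ((clone D n w r).A n x) ((clone D n w r).A w y) ∨
    EX ((clone D n w r).A n y) ((clone D n w r).A w x))

/-- CRP. As CGP (helper80). -/
def CRP_S : Prop := ∀ (L : Type) [LinearOrder L] (R : ℕ → ℕ → Prop) (n : ℕ) (D : Diag L)
  (w : ℕ) (r : ℕ → ℤ), GoodR R n D → w < n → RankedR R n D w r → TwinR R n w →
  (∀ x < n + 1, ∀ y < n + 1, (clone D n w r).pos x = (clone D n w r).pos y → x = y) ∧
  (∀ x < n + 1, ∀ y < n + 1, ∀ z < n + 1, R x y →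
    (clone D n w r).pos z ∉ (clone D n w r).E x y) ∧
  (∀ x < n + 1, ∀ y < n + 1, R x y → ((clone D n w r).E x y).Nodup) ∧
  (∀ x < n + 1, ∀ y < n + 1, R x y → ∀ c, c ∈ (clone D n w r).E x y →
    c ∈ (clone D n w r).E y x)

/-- CRJ. As CGJ (helper48). -/
def CRJ_S : Prop := ∀ (L : Type) [LinearOrder L] (R : ℕ → ℕ → Prop) (n : ℕ) (D : Diag L)
  (w : ℕ) (r : ℕ → ℤ), GoodR R n D → w < n → RankedR R n D w r → TwinR R n w →
  (∀ x < n + 1, ∀ y < n + 1, ∀ z < n + 1, ∀ t < n + 1, R x y → R z t → ∀ c,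
    c ∈ (clone D n w r).E x y → c ∈ (clone D n w r).E z t →
    (x = z ∧ y = t) ∨ (x = t ∧ y = z))

/-- CRD. As CGD (helper78): the clone is good. -/
def CRD_S : Prop := ∀ (L : Type) [LinearOrder L] (R : ℕ → ℕ → Prop) (n : ℕ) (D : Diag L)
  (w : ℕ) (r : ℕ → ℤ), GoodR R n D → w < n → RankedR R n D w r → TwinR R n w →
  GoodR R (n + 1) (clone D n w r)

/-- RKR. As RNK (helper31). -/
def RKR_S : Prop := ∀ (L : Type) [LinearOrder L] (R : ℕ → ℕ → Prop) (n : ℕ) (D : Diag L)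
  (w : ℕ), GoodR R n D → w < n → ∃ r : ℕ → ℤ, RankedR R n D w r

/-- BLO. Blow-up of a diagram: induction on `N`; the new vertex `N` is a clone of `τ N < m`
(`TwinR` holds because `R` depends only on the types).  Second property, new pairs: `x = N`,
`x' = τ N`: CRG (2).  `x = N`, `x' ≠ τ N`: old property for `τ N, x'` and CRG (1).  `y = N`,
`y' = τ N`: CRG (2) at `w = τ N`, with the neighbours `x, x'` (reverse the edges: OLD, CLB).
`y = N`, `y' ≠ τ N`: old property for `x, x'; τ N, y'` and CRG (1).  (needs CRG CRD RKR OLD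
CLB) -/
def BLO_S : Prop := ∀ (L : Type) [LinearOrder L] (R : ℕ → ℕ → Prop) (m : ℕ) (D0 : Diag L)
  (τ : ℕ → ℕ), GoodR R m D0 → (∀ x < m, τ x = x) → (∀ x, τ x < m) →
  (∀ x y, R x y ↔ R (τ x) (τ y)) → ∀ N, m ≤ N →
  ∃ (L' : Type) (_ : LinearOrder L') (D : Diag L'), GoodR R N D ∧
    (∀ x < N, ∀ y < N, ∀ z < N, ∀ t < N, R x y → R z t → τ x ≠ τ z → τ x ≠ τ t → τ y ≠ τ z →
      τ y ≠ τ t → EX (D0.A (τ x) (τ y)) (D0.A (τ z) (τ t)) → EX (D.A x y) (D.A z t)) ∧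
    (∀ x < N, ∀ x' < N, ∀ y < N, ∀ y' < N, x ≠ x' → τ x = τ x' → y ≠ y' → R x y → R x y' →
      EX (D.A x y) (D.A x' y') ∨ EX (D.A x y') (D.A x' y))

/-- TRR. As TRF (helper44), keeping all crossings. -/
def TRR_S : Prop := ∀ (L : Type) [LinearOrder L] (R : ℕ → ℕ → Prop) (n : ℕ) (D : Diag L),
  GoodR R n D → ∃ D' : Diag ℝ, GoodR R n D' ∧ Generic (PtR R n D') ∧
    ∀ x < n, ∀ y < n, ∀ z < n, ∀ t < n, R x y → R z t → EX (D.A x y) (D.A z t) →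
      EX (D'.A x y) (D'.A z t)

/-- CPR. As CPP (helper89). -/
def CPR_S : Prop := ∀ (R : ℕ → ℕ → Prop) (n : ℕ) (D : Diag ℝ), GoodR R n D →
  ∀ x < n, ∀ y < n, ∀ z < n, ∀ t < n,
  R x y → R z t → ¬ (x = z ∧ y = t) → ¬ (x = t ∧ y = z) →
  (curve (D.A x y) ∩ curve (D.A z t)).Subsingleton ∧
  ∀ p, p ∈ curve (D.A x y) → p ∈ curve (D.A z t) →
    (p.2 = 0 ∧ ∃ v, (v = x ∨ v = y) ∧ (v = z ∨ v = t) ∧ p = (D.pos v, 0)) ∨
    (p.2 ≠ 0 ∧ (∃ A ∈ D.A x y, ∃ B ∈ D.A z t, Cross A B ∧ p ∈ arcSet A.1 A.2.1 A.2.2 ∧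
      p ∈ arcSet B.1 B.2.1 B.2.2) ∧ ProperCrossing (curve (D.A x y)) (curve (D.A z t)) p)

/-- CTR. As CPT (helper66). -/
def CTR_S : Prop := ∀ (R : ℕ → ℕ → Prop) (n : ℕ) (D : Diag ℝ), GoodR R n D →
  Generic (PtR R n D) →
  ∀ x < n, ∀ y < n, ∀ z < n, ∀ t < n, ∀ u < n, ∀ v < n, R x y → R z t → R u v →
  ¬ (x = z ∧ y = t) → ¬ (x = t ∧ y = z) → ¬ (x = u ∧ y = v) → ¬ (x = v ∧ y = u) →
  ¬ (z = u ∧ t = v) → ¬ (z = v ∧ t = u) →
  ∀ p, p ∈ curve (D.A x y) → p ∈ curve (D.A z t) → p ∈ curve (D.A u v) → p.2 = 0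

/-- CVR. As CPV (helper72). -/
def CVR_S : Prop := ∀ (R : ℕ → ℕ → Prop) (n : ℕ) (D : Diag ℝ), GoodR R n D →
  ∀ x < n, ∀ y < n, R x y →
  (D.pos x, (0 : ℝ)) ∈ curve (D.A x y) ∧ (D.pos y, (0 : ℝ)) ∈ curve (D.A x y) ∧
  (∀ p ∈ curve (D.A x y), p.2 = 0 → p.1 ∈ D.P x y) ∧
  (∀ z < n, (D.pos z, (0 : ℝ)) ∈ curve (D.A x y) → z = x ∨ z = y) ∧
  curve (D.A y x) = curve (D.A x y)

/-- DRR. As DRW (helper51). -/
def DRR_S : Prop := ∀ (V : Type) (K : SimpleGraph V) (R : ℕ → ℕ → Prop) (n : ℕ) (e : V → ℕ)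
  (D : Diag ℝ), Function.Injective e → (∀ v, e v < n) → (∀ u v, K.Adj u v → R (e u) (e v)) →
  GoodR R n D → Generic (PtR R n D) →
  ∃ Dr : Drawing K, ∀ u v u' v' : V, K.Adj u v → K.Adj u' v' →
    EX (D.A (e u) (e v)) (D.A (e u') (e v')) → Dr.Crosses s(u, v) s(u', v')

/-- BLF. Blow-up of a drawing (needs BLO TRR DRR): the base vertices are `0, …, m-1`, the
vertices of `V` are `m, m+1, …` (all of them clones). -/
def BLF_S : Prop := ∀ (L : Type) [LinearOrder L] (R : ℕ → ℕ → Prop) (m : ℕ) (D0 : Diag L),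
  GoodR R m D0 → ∀ (V : Type) [Fintype V] (τ : V → ℕ), (∀ v, τ v < m) →
  ∀ K : SimpleGraph V, (∀ u v, K.Adj u v → R (τ u) (τ v)) →
  ∃ Dr : Drawing K,
    (∀ u v u' v', K.Adj u v → K.Adj u' v' → τ u ≠ τ u' → τ u ≠ τ v' → τ v ≠ τ u' →
      τ v ≠ τ v' → EX (D0.A (τ u) (τ v)) (D0.A (τ u') (τ v')) →
      Dr.Crosses s(u, v) s(u', v')) ∧
    (∀ u u' v v', u ≠ u' → τ u = τ u' → v ≠ v' → K.Adj u v → K.Adj u v' → K.Adj u' v →
      K.Adj u' v' → Dr.Crosses s(u, v) s(u', v') ∨ Dr.Crosses s(u, v') s(u', v))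

end Pool.MCR
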