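import Pool.Agent.H88.MCR.Stmts3

/-!
The base diagram of the graph `H` with the 10 edges 01 02 16 24 25 35 37 46 47 67.
-/

namespace Pool.MCR

/-- The edges of `H`, both orientations. -/
def E8 : List (ℕ × ℕ) :=
  [(0, 1), (0, 2), (1, 6), (2, 4), (2, 5), (3, 5), (3, 7), (4, 6), (4, 7), (6, 7),
   (1, 0), (2, 0), (6, 1), (4, 2), (5, 2), (5, 3), (7, 3), (6, 4), (7, 4), (7, 6)]

def R8 (x y : ℕ) : Prop := (x, y) ∈ E8

/-- A simple drawing of `H` in which exactly the 25 pairs of `X8` cross. -/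
def B8 : Diag ℕ where
  pos x := [2, 8, 5, 10, 11, 0, 14, 3].getD x 0
  E x y :=
    if (x = 0 ∧ y = 1) ∨ (x = 1 ∧ y = 0) then [12]
    else if (x = 2 ∧ y = 5) ∨ (x = 5 ∧ y = 2) then [13]
    else if x = 3 ∧ y = 5 then [6, 4]
    else if x = 5 ∧ y = 3 then [4, 6]
    else if (x = 4 ∧ y = 6) ∨ (x = 6 ∧ y = 4) then [9]
    else if x = 4 ∧ y = 7 then [15, 1]
    else if x = 7 ∧ y = 4 then [1, 15]
    else if (x = 6 ∧ y = 7) ∨ (x = 7 ∧ y = 6) then [7]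
    else []
  S x y := decide ((x, y) ∈ [(0, 1), (2, 5), (3, 5), (5, 3), (6, 4), (6, 7)])

/-- The 25 pairs of edges that cross. -/
def X8 : List (ℕ × ℕ × ℕ × ℕ) :=
  [(0, 1, 2, 4), (0, 1, 2, 5), (3, 5, 2, 4), (0, 1, 4, 6), (1, 6, 2, 4), (2, 5, 4, 6),
   (0, 2, 4, 7), (2, 5, 4, 7), (3, 5, 4, 7), (0, 1, 6, 7), (1, 6, 3, 7), (1, 6, 4, 7),
   (2, 4, 6, 7), (3, 7, 4, 6), (3, 5, 6, 7), (0, 1, 4, 7), (2, 5, 6, 7), (1, 6, 2, 5),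
   (2, 4, 3, 7), (3, 5, 4, 6), (0, 1, 3, 7), (0, 1, 3, 5), (0, 2, 3, 7), (0, 2, 3, 5),
   (0, 2, 6, 7)]

/-- B8G. Finite check, as B6G (helper14). -/
def B8G_S : Prop := GoodR R8 8 B8

/-- B8X. Finite check, as B6G (helper14). -/
def B8X_S : Prop := ∀ q ∈ X8, EX (B8.A q.1 q.2.1) (B8.A q.2.2.1 q.2.2.2)

end Pool.MCR
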